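import Pool.Agent.helper908_ray.Main

set_option autoImplicit false

/-!
No formula of Ghys and Sergiescu type in the plane.  In dimension one the discrete Godbillon and Vey
cocycle is a sum over the break points of a function of the one-sided derivatives.  Here we show
that the analogous expression for `PL_c(ℝ²)`, a sum over all points `x` and over all rays issuing
from `x` of an arbitrary function of the direction of the ray and of the linear parts of the maps
on the two sides of that ray, is identically zero as soon as it is a finite sum.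
-/

namespace Pool.Agent.Results.MP_c71557_gt.NoRayFormula

open Pool.Agent.Helper908Ray

/-- The local contribution at `x`: the sum over all unit directions `v` of
`Ψ v (linear parts of the F i at x to the left of the ray) (the same to the right)`. -/
noncomputable def rayTerm {n : ℕ} (Ψ : ℝ × ℝ → (Fin n → (ℝ × ℝ) →ₗ[ℝ] (ℝ × ℝ)) →
      (Fin n → (ℝ × ℝ) →ₗ[ℝ] (ℝ × ℝ)) → ℝ)
    (F : Fin n → Equiv.Perm (ℝ × ℝ)) (x : ℝ × ℝ) : ℝ :=
  ∑ᶠ v : {v : ℝ × ℝ // v.1 ^ 2 + v.2 ^ 2 = 1},
    Ψ v.1 (fun i => sidePart (F i) x v.1 1) (fun i => sidePart (F i) x v.1 (-1))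

/-- Every formula that sums over the break rays of finitely many elements of `PL_c(ℝ²)` a function
of the direction and of the linear parts on both sides is identically zero. -/
theorem result : ∀ (n : ℕ)
    (Ψ : ℝ × ℝ → (Fin n → (ℝ × ℝ) →ₗ[ℝ] (ℝ × ℝ)) →
      (Fin n → (ℝ × ℝ) →ₗ[ℝ] (ℝ × ℝ)) → ℝ), (∀ v a, Ψ v a a = 0) →
    ∀ F : Fin n → Equiv.Perm (ℝ × ℝ), (∀ i, F i ∈ PLc) →
      {x : ℝ × ℝ | rayTerm Ψ F x ≠ 0}.Finite → ∑ᶠ x : ℝ × ℝ, rayTerm Ψ F x = 0 := by
  intro n Ψ hΨ F hF hfin
  exact main Ψ hΨ F hF hfin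

end Pool.Agent.Results.MP_c71557_gt.NoRayFormula
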